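import Pool.Agent.R480.Jes.Triples

/-!
# The conjecture of Jeśmanowicz for almost all primitive triples and all their multiples
-/

set_option autoImplicit false

namespace Pool.Agent.Results.MP_252f3f_nt.AlmostAllMultiples

open Pool.Agent.R480.Jes

/-- All but `O(X ^ (99 / 100))` of the primitive Pythagorean triples `(a, b, c)` with `c ≤ X`
satisfy the conjecture of Jeśmanowicz together with all their multiples. -/
theorem result : ∃ C : ℝ, ∀ X : ℕ, 1 ≤ X →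
    (({p : ℕ × ℕ × ℕ | p.2.2 ≤ X ∧ 0 < p.1 ∧ 0 < p.2.1 ∧ Nat.Coprime p.1 p.2.1 ∧
        p.1 ^ 2 + p.2.1 ^ 2 = p.2.2 ^ 2 ∧
        ∃ k x y z : ℕ, 0 < k ∧ 0 < x ∧ 0 < y ∧ 0 < z ∧ ¬ (x = 2 ∧ y = 2 ∧ z = 2) ∧
          (k * p.1) ^ x + (k * p.2.1) ^ y = (k * p.2.2) ^ z}.ncard : ℕ) : ℝ) ≤
      C * (X : ℝ) ^ (99 / 100 : ℝ) := by
  obtain ⟨C, hC⟩ := primitive_all
  refine ⟨C, fun X hX => ?_⟩
  refine le_trans ?_ (hC X hX)
  rw [← Set.ncard_coe_finset]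
  have hsub : {p : ℕ × ℕ × ℕ | p.2.2 ≤ X ∧ 0 < p.1 ∧ 0 < p.2.1 ∧ Nat.Coprime p.1 p.2.1 ∧
        p.1 ^ 2 + p.2.1 ^ 2 = p.2.2 ^ 2 ∧
        ∃ k x y z : ℕ, 0 < k ∧ 0 < x ∧ 0 < y ∧ 0 < z ∧ ¬ (x = 2 ∧ y = 2 ∧ z = 2) ∧
          (k * p.1) ^ x + (k * p.2.1) ^ y = (k * p.2.2) ^ z} ⊆
      ↑(tri X (fun a b c => Primitive a b c ∧
        ∃ k : ℕ, 1 ≤ k ∧ Fails (k * a) (k * b) (k * c))) := by
    rintro ⟨a, b, c⟩ ⟨hcX, ha, hb, hco, hp, k, x, y, z, hk, hx, hy, hz, hne, heq⟩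
    simp only at hcX ha hb hco hp heq
    rw [Finset.mem_coe, mem_tri]
    have h1 : a ≤ c := by
      by_contra hcon
      push Not at hcon
      have h2 : c ^ 2 ≤ a ^ 2 := Nat.pow_le_pow_left hcon.le 2
      have h3 : 0 < b ^ 2 := by positivity
      omega
    have h2 : b ≤ c := by
      by_contra hcon
      push Not at hcon
      have h2 : c ^ 2 ≤ b ^ 2 := Nat.pow_le_pow_left hcon.le 2
      have h3 : 0 < a ^ 2 := by positivity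
      omega
    exact ⟨⟨h1.trans hcX, h2.trans hcX, hcX⟩, ⟨ha, hb, hp, hco⟩, k, hk, x, y, z, hx, hy, hz, hne,
      heq⟩
  exact_mod_cast Set.ncard_le_ncard hsub (Finset.finite_toSet _)

end Pool.Agent.Results.MP_252f3f_nt.AlmostAllMultiples
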