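import Pool.Agent.R480.Jes.Triples

/-!
# The conjecture of Jeśmanowicz for primitive triples: square root bound for the exceptions
-/

set_option autoImplicit false

namespace Pool.Agent.Results.MP_252f3f_nt.PrimitiveSquareRoot

open Pool.Agent.R480.Jes

/-- At most `C √X (log X) ^ K` primitive Pythagorean triples `(a, b, c)` with `c ≤ X` violate the
conjecture of Jeśmanowicz. -/
theorem result : ∃ (C : ℝ) (K : ℕ), ∀ X : ℕ, 2 ≤ X →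
    (({p : ℕ × ℕ × ℕ | p.2.2 ≤ X ∧ 0 < p.1 ∧ 0 < p.2.1 ∧ Nat.Coprime p.1 p.2.1 ∧
        p.1 ^ 2 + p.2.1 ^ 2 = p.2.2 ^ 2 ∧
        ∃ x y z : ℕ, 0 < x ∧ 0 < y ∧ 0 < z ∧ ¬ (x = 2 ∧ y = 2 ∧ z = 2) ∧
          p.1 ^ x + p.2.1 ^ y = p.2.2 ^ z}.ncard : ℕ) : ℝ) ≤
      C * Real.sqrt X * (Real.log X) ^ K := by
  obtain ⟨C, K, hC⟩ := primitive_one
  refine ⟨C, K, fun X hX => ?_⟩
  refine le_trans ?_ (hC X hX)
  rw [← Set.ncard_coe_finset]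
  have hsub : {p : ℕ × ℕ × ℕ | p.2.2 ≤ X ∧ 0 < p.1 ∧ 0 < p.2.1 ∧ Nat.Coprime p.1 p.2.1 ∧
        p.1 ^ 2 + p.2.1 ^ 2 = p.2.2 ^ 2 ∧
        ∃ x y z : ℕ, 0 < x ∧ 0 < y ∧ 0 < z ∧ ¬ (x = 2 ∧ y = 2 ∧ z = 2) ∧
          p.1 ^ x + p.2.1 ^ y = p.2.2 ^ z} ⊆
      ↑(tri X (fun a b c => Primitive a b c ∧ Fails a b c)) := by
    rintro ⟨a, b, c⟩ ⟨hcX, ha, hb, hco, hp, x, y, z, hx, hy, hz, hne, heq⟩
    simp only at hcX ha hb hco hp heq
    rw [Finset.mem_coe, mem_tri]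
    have h1 : a ≤ c := by
      by_contra hcon
      push Not at hcon
      have h2 : c ^ 2 ≤ a ^ 2 := Nat.pow_le_pow_left hcon.le 2
      have h3 : 0 < b ^ 2 := by positivity
      omega
    have h2 : b ≤ c := by
      by_contra hcon
      push Not at hcon
      have h2 : c ^ 2 ≤ b ^ 2 := Nat.pow_le_pow_left hcon.le 2
      have h3 : 0 < a ^ 2 := by positivity
      omega
    exact ⟨⟨h1.trans hcX, h2.trans hcX, hcX⟩, ⟨ha, hb, hp, hco⟩, x, y, z, hx, hy, hz, hne, heq⟩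
  exact_mod_cast Set.ncard_le_ncard hsub (Finset.finite_toSet _)

end Pool.Agent.Results.MP_252f3f_nt.PrimitiveSquareRoot
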